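import Mathlib
import Pool.Agent.Q280.KB.Direct

/-!
Classification of the `(n/2)`-bent Boolean functions, `n = 2m` even.
-/

namespace Pool.Agent.Results.MP_0e3175_co.KBentClassification

open Finset

/-- the sign `(-1)^t` of `t ∈ F_2` -/
def sgn (t : ZMod 2) : ℤ := if t = 0 then 1 else -1

/-- `u_{i+1}(x) = x_{2i+1} + x_{2i+2}` in the numbering `x_1, ..., x_n` of the problem
(coordinates are numbered from `0` here, so this is `x (2i) + x (2i+1)`). -/
def u {m : ℕ} (x : Fin (2 * m) → ZMod 2) (i : Fin m) : ZMod 2 :=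
  x ⟨2 * i, by omega⟩ + x ⟨2 * i + 1, by omega⟩

/-- the form `⟨x, y⟩_k = ⟨x, y⟩ + ∑_{1 ≤ i ≤ j ≤ k} u_i(x) u_j(x) u_i(y) u_j(y)` -/
def form {m : ℕ} (k : ℕ) (x y : Fin (2 * m) → ZMod 2) : ZMod 2 :=
  (∑ i, x i * y i) +
    ∑ i : Fin m, ∑ j : Fin m,
      if i ≤ j ∧ (j : ℕ) < k then u x i * u x j * (u y i * u y j) else 0

/-- the `k`-Walsh-Hadamard transform -/
def walsh {m : ℕ} (k : ℕ) (f : (Fin (2 * m) → ZMod 2) → ZMod 2)
    (y : Fin (2 * m) → ZMod 2) : ℤ :=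
  ∑ x, sgn (f x + form k x y)

/-- `f ∘ π`: `x ↦ f (x_{π(1)}, ..., x_{π(n)})` -/
def permute {m : ℕ} (f : (Fin (2 * m) → ZMod 2) → ZMod 2) (π : Equiv.Perm (Fin (2 * m))) :
    (Fin (2 * m) → ZMod 2) → ZMod 2 :=
  fun x => f (fun i => x (π i))

/-- `f` (in `n = 2m` variables) is `k`-bent -/
def IsKBent {m : ℕ} (k : ℕ) (f : (Fin (2 * m) → ZMod 2) → ZMod 2) : Prop :=
  ∀ π : Equiv.Perm (Fin (2 * m)), ∀ j : ℕ, 1 ≤ j → j ≤ k → ∀ y,
    walsh j (permute f π) y = 2 ^ m ∨ walsh j (permute f π) y = -2 ^ m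

/-- the functions of the list: `∑_{i<j} x_i x_j + (∑_{i ∈ M} x_i) (∑_i x_i) + ∑ b_i x_i + c`
with `|M|` even -/
def InList {m : ℕ} (f : (Fin (2 * m) → ZMod 2) → ZMod 2) : Prop :=
  ∃ M : Finset (Fin (2 * m)), Even M.card ∧ ∃ (b : Fin (2 * m) → ZMod 2) (c : ZMod 2),
    ∀ x, f x = (∑ i, ∑ j, if i < j then x i * x j else 0) + (∑ i ∈ M, x i) * (∑ i, x i) +
      (∑ i, b i * x i) + c

open Pool.Agent.Q280.KB in
lemma sgn_eq (t : ZMod 2) : sgn t = Pool.Agent.Q280.KB.sgn t := rfl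

lemma walsh_eq {m : ℕ} (k : ℕ) (f : (Fin (2 * m) → ZMod 2) → ZMod 2)
    (y : Fin (2 * m) → ZMod 2) :
    walsh k f y = ∑ x, Pool.Agent.Q280.KB.sgn (f x + Pool.Agent.Q280.KB.fk k x y) := rfl

lemma inList_iff {m : ℕ} (f : (Fin (2 * m) → ZMod 2) → ZMod 2) :
    InList f ↔ Pool.Agent.Q280.KB.Cls f := by
  constructor
  · rintro ⟨M, hM, b, c, h⟩
    refine ⟨Pool.Agent.Q280.KB.ind M, ?_, b, c, ?_⟩
    · rw [Pool.Agent.Q280.KB.L_eq_wt, Pool.Agent.Q280.KB.wt_ind]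
      exact (ZMod.natCast_eq_zero_iff_even).mpr hM
    · intro x
      rw [h x]
      have : ∑ i, Pool.Agent.Q280.KB.ind M i * x i = ∑ i ∈ M, x i := by
        simp [Pool.Agent.Q280.KB.ind]
      rw [this]; rfl
  · rintro ⟨μ, hμ, b, c, h⟩
    refine ⟨univ.filter (fun i => μ i = 1), ?_, b, c, ?_⟩
    · rw [Pool.Agent.Q280.KB.eq_ind μ, Pool.Agent.Q280.KB.L_eq_wt,
        Pool.Agent.Q280.KB.wt_ind] at hμ
      exact (ZMod.natCast_eq_zero_iff_even).mp hμ
    · intro x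
      rw [h x]
      have : ∑ i, μ i * x i = ∑ i ∈ univ.filter (fun i => μ i = 1), x i := by
        rw [Finset.sum_filter]
        apply Finset.sum_congr rfl
        intro i _
        rcases Pool.Agent.Q280.KB.zmod2_cases (μ i) with h | h <;> simp [h]
      rw [this]; rfl

lemma cls_of_one (f : (Fin (2 * 1) → ZMod 2) → ZMod 2)
    (h : Pool.Agent.Q280.KB.W f 0 = 2 ^ 1 ∨ Pool.Agent.Q280.KB.W f 0 = -2 ^ 1) :
    Pool.Agent.Q280.KB.Cls f := by
  have hW : Pool.Agent.Q280.KB.W f 0 =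
      Pool.Agent.Q280.KB.sgn (f ![0, 0]) + Pool.Agent.Q280.KB.sgn (f ![0, 1]) +
        (Pool.Agent.Q280.KB.sgn (f ![1, 0]) + Pool.Agent.Q280.KB.sgn (f ![1, 1])) := by
    unfold Pool.Agent.Q280.KB.W
    have e0 : ∀ x : Fin (2 * 1) → ZMod 2,
        Pool.Agent.Q280.KB.sgn (f x + ∑ i, x i * (0 : Fin (2 * 1) → ZMod 2) i) =
          Pool.Agent.Q280.KB.sgn (f x) := by
      intro x; simp
    rw [Finset.sum_congr rfl (fun x _ => e0 x)]
    have e1 := Equiv.sum_comp (finTwoArrowEquiv (ZMod 2)).symm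
      (fun x : Fin 2 → ZMod 2 => Pool.Agent.Q280.KB.sgn (f x))
    have e2 : ∑ x : Fin (2 * 1) → ZMod 2, Pool.Agent.Q280.KB.sgn (f x) =
        ∑ p : ZMod 2 × ZMod 2, Pool.Agent.Q280.KB.sgn (f ![p.1, p.2]) := e1.symm
    rw [e2, Fintype.sum_prod_type]
    have hu : (univ : Finset (ZMod 2)) = {0, 1} := by decide
    rw [hu]
    simp
  have h4 : f ![1, 1] = f ![0, 0] + f ![0, 1] + f ![1, 0] + 1 := by
    rw [hW] at h
    revert h
    generalize f ![0, 0] = p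
    generalize f ![0, 1] = q
    generalize f ![1, 0] = r
    generalize f ![1, 1] = s
    revert p q r s
    decide
  refine ⟨0, by simp [Pool.Agent.Q280.KB.L], ![f ![1, 0] + f ![0, 0], f ![0, 1] + f ![0, 0]],
    f ![0, 0], ?_⟩
  intro x
  have hx : x = ![x 0, x 1] := by
    funext i; fin_cases i <;> rfl
  have hQ : Pool.Agent.Q280.KB.Q x = x 0 * x 1 := by
    unfold Pool.Agent.Q280.KB.Q
    show ∑ i : Fin 2, ∑ j : Fin 2, (if i < j then x i * x j else 0) = _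
    simp [Fin.sum_univ_two]
  have hb : ∑ i, (![f ![1, 0] + f ![0, 0], f ![0, 1] + f ![0, 0]] : Fin (2 * 1) → ZMod 2) i * x i =
      (f ![1, 0] + f ![0, 0]) * x 0 + (f ![0, 1] + f ![0, 0]) * x 1 := by
    show ∑ i : Fin 2, _ = _
    rw [Fin.sum_univ_two]; rfl
  rw [hQ, hb]
  have hz : ∑ i, (0 : Fin (2 * 1) → ZMod 2) i * x i = 0 := by simp
  rw [hz, zero_mul, add_zero]
  have hfx : f x = f ![x 0, x 1] := by rw [← hx]
  rw [hfx]
  rcases Pool.Agent.Q280.KB.zmod2_cases (x 0) with h0 | h0 <;>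
    rcases Pool.Agent.Q280.KB.zmod2_cases (x 1) with h1 | h1 <;> rw [h0, h1]
  · ring
  · have := Pool.Agent.Q280.KB.add_self' (f ![0, 0])
    linear_combination (-1 : ZMod 2) * this
  · have := Pool.Agent.Q280.KB.add_self' (f ![0, 0])
    linear_combination (-1 : ZMod 2) * this
  · rw [h4]
    have := Pool.Agent.Q280.KB.add_self' (f ![0, 0])
    linear_combination (-1 : ZMod 2) * this

lemma inList_of_two {m : ℕ} (hm : 2 ≤ m) {f : (Fin (2 * m) → ZMod 2) → ZMod 2}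
    (h : IsKBent 2 f) : InList f := by
  rw [inList_iff]
  apply Pool.Agent.Q280.KB.cls_of_two hm f
  · intro y
    exact h 1 1 le_rfl (by norm_num) y
  · intro π y
    exact h π 2 (by norm_num) le_rfl y

lemma kbent_of_inList {m : ℕ} {f : (Fin (2 * m) → ZMod 2) → ZMod 2} (h : InList f) (k : ℕ) :
    IsKBent k f := by
  rw [inList_iff] at h
  intro π j _ _ y
  have h1 := Pool.Agent.Q280.KB.cls_flat (Pool.Agent.Q280.KB.cls_perm h π) j y
  exact mul_self_eq_mul_self_iff.mp h1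

/-- Q1: for every even `n = 2m ≥ 2` the `(n/2)`-bent functions in `n` variables are exactly
the functions of the list; moreover for `2 ≤ k ≤ n/2` the `k`-bent functions are the same. -/
theorem result :
    (∀ m : ℕ, 1 ≤ m → ∀ f : (Fin (2 * m) → ZMod 2) → ZMod 2, IsKBent m f ↔ InList f) ∧
    (∀ m k : ℕ, 2 ≤ k → k ≤ m → ∀ f : (Fin (2 * m) → ZMod 2) → ZMod 2,
      IsKBent k f ↔ InList f) := by
  have second : ∀ m k : ℕ, 2 ≤ k → k ≤ m → ∀ f : (Fin (2 * m) → ZMod 2) → ZMod 2,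
      IsKBent k f ↔ InList f := by
    intro m k hk hkm f
    constructor
    · intro h
      exact inList_of_two (by omega) (fun π j h1 h2 y => h π j h1 (by omega) y)
    · intro h; exact kbent_of_inList h k
  refine ⟨?_, second⟩
  intro m hm f
  rcases Nat.lt_or_ge m 2 with h2 | h2
  · have : m = 1 := by omega
    subst this
    constructor
    · intro h
      rw [inList_iff]
      apply cls_of_one
      exact Pool.Agent.Q280.KB.bent_of_first le_rfl f (fun y => h 1 1 le_rfl le_rfl y) 0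
    · intro h; exact kbent_of_inList h 1
  · exact second m m h2 le_rfl f

end Pool.Agent.Results.MP_0e3175_co.KBentClassification
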